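import Pool.Agent.H92.EHD.TR
import Pool.Agent.H14.EQ.TZ
import Pool.Agent.H69.EQ.TM

/-!
# Row RFB: Fubini for one entry of a Gaussian matrix
-/

set_option autoImplicit false

namespace Pool.Agent.H69.EHD

open MeasureTheory Pool.Agent.H92.EQ Pool.Agent.H92.EHD Pool.Agent.H69.EQ

theorem gss_eq {N : ℕ} (X : Fin N → Fin N → ℂ) : gss X = ∏ i, ∏ j, gs 1 (X i j) := by
  unfold gss gs
  refine Finset.prod_congr rfl fun i _ => Finset.prod_congr rfl fun j _ => ?_
  rw [mul_one, div_one]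

theorem pf_RFB : T_RFB := by
  intro N i j f hf
  obtain ⟨hg1, hg2⟩ := Pool.Agent.H14.EQ.gs_int one_pos
  obtain ⟨Ψ, hΨ⟩ : ∃ Ψ : (Fin N → Fin N → ℂ) × ℂ → ℝ,
      Ψ = fun p => (gss p.1 * f p.1) * gs 1 p.2 := ⟨_, rfl⟩
  have hΨi : Integrable Ψ := by
    rw [hΨ]; exact hf.mul_prod hg1
  have hkey : ∀ p : (Fin N → Fin N → ℂ) × ℂ,
      Ψ (tau i j p) = gss p.1 * (gs 1 p.2 * f (rep p.1 i j p.2)) := by
    intro p
    rw [hΨ]
    show gss (rep p.1 i j p.2) * f (rep p.1 i j p.2) * gs 1 (p.1 i j) = _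
    rw [gss_eq, gss_eq, w_split (fun _ _ => gs 1) i j (rep p.1 i j p.2),
      w_split (fun _ _ => gs 1) i j p.1, oth_rep, rep_apply, if_pos ⟨rfl, rfl⟩]
    ring
  have hmp := tau_mp (N := N) i j
  have hΦi : Integrable (fun p : (Fin N → Fin N → ℂ) × ℂ =>
      gss p.1 * (gs 1 p.2 * f (rep p.1 i j p.2))) := by
    have h1 : Integrable (Ψ ∘ tau i j) :=
      (hmp.integrable_comp hΨi.aestronglyMeasurable).2 hΨi
    refine h1.congr (Filter.Eventually.of_forall fun p => ?_)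
    exact hkey p
  have hΦe : ∫ p : (Fin N → Fin N → ℂ) × ℂ, gss p.1 * (gs 1 p.2 * f (rep p.1 i j p.2)) =
      ∫ p, Ψ p := by
    have h2 : ∫ p, Ψ p = ∫ p, Ψ (tau i j p) := by
      have h3 := integral_map (φ := tau i j) (μ := volume) (f := Ψ) hmp.measurable.aemeasurable
        (by rw [hmp.map_eq]; exact hΨi.aestronglyMeasurable)
      rw [hmp.map_eq] at h3
      exact h3
    rw [h2]
    exact integral_congr_ae (Filter.Eventually.of_forall fun p => (hkey p).symm)
  have hΨe : ∫ p, Ψ p = ∫ X : Fin N → Fin N → ℂ, gss X * f X := by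
    have h4 := integral_prod_mul (μ := (volume : Measure (Fin N → Fin N → ℂ)))
      (ν := (volume : Measure ℂ)) (fun X : Fin N → Fin N → ℂ => gss X * f X) (gs 1)
    rw [hg2, mul_one] at h4
    rw [hΨ]
    exact h4
  have h5 : ∀ X : Fin N → Fin N → ℂ, ∫ r : ℂ, gss X * (gs 1 r * f (rep X i j r)) =
      gss X * ∫ r, gs 1 r * f (rep X i j r) := fun X => integral_const_mul _ _
  constructor
  · have h6 := hΦi.integral_prod_left
    refine h6.congr (Filter.Eventually.of_forall fun X => ?_)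
    exact h5 X
  · rw [← hΨe, ← hΦe]
    have h7 := integral_prod (μ := (volume : Measure (Fin N → Fin N → ℂ)))
      (ν := (volume : Measure ℂ)) _ hΦi
    refine (Eq.trans ?_ h7).trans ?_
    · rfl
    · exact integral_congr_ae (Filter.Eventually.of_forall fun X => h5 X)

end Pool.Agent.H69.EHD
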