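import Pool.Agent.H92.EHD.TR
import Pool.Agent.H14.EQ.TZ

/-!
# Row RGB: the heat potential and Gaussian variables
-/

set_option autoImplicit false

namespace Pool.Agent.H69.EHD

open MeasureTheory Pool.Agent.H92.EQ Pool.Agent.H92.EHD

open scoped ENNReal

theorem gs_meas : Measurable (fun p : ℝ × ℂ => gs p.1 p.2) := by
  unfold gs
  fun_prop

theorem gs_nn {s : ℝ} (hs : 0 < s) (t : ℂ) : 0 ≤ gs s t := by
  unfold gs
  positivity

/-- the total mass -/
theorem lint_gs {s : ℝ} (hs : 0 < s) : ∫⁻ t, ENNReal.ofReal (gs s t) = 1 := by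
  obtain ⟨h1, h2⟩ := Pool.Agent.H14.EQ.gs_int hs
  rw [← ofReal_integral_eq_lintegral_ofReal h1 (Filter.Eventually.of_forall (gs_nn hs)), h2,
    ENNReal.ofReal_one]

/-- completing the square -/
theorem gs_mul_gs {s : ℝ} (hs : 0 < s) (a z r : ℂ) :
    gs 1 r * gs s (z - r * a) = gs (s + ‖a‖ ^ 2) z *
      gs (s / (s + ‖a‖ ^ 2)) (r - (starRingEnd ℂ a) * z / ((s + ‖a‖ ^ 2 : ℝ) : ℂ)) := by
  obtain ⟨σ, hσ⟩ : ∃ σ : ℝ, σ = s + ‖a‖ ^ 2 := ⟨_, rfl⟩
  have hσ0 : 0 < σ := by rw [hσ]; positivity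
  rw [← hσ]
  unfold gs
  have h1 : (Real.pi * 1)⁻¹ * Real.exp (-‖r‖ ^ 2 / 1) *
      ((Real.pi * s)⁻¹ * Real.exp (-‖z - r * a‖ ^ 2 / s)) =
      (Real.pi ^ 2 * s)⁻¹ * Real.exp (-‖r‖ ^ 2 / 1 + -‖z - r * a‖ ^ 2 / s) := by
    rw [Real.exp_add]
    field_simp
  have h2 : (Real.pi * σ)⁻¹ * Real.exp (-‖z‖ ^ 2 / σ) * ((Real.pi * (s / σ))⁻¹ *
      Real.exp (-‖r - (starRingEnd ℂ a) * z / (σ : ℂ)‖ ^ 2 / (s / σ))) =
      (Real.pi ^ 2 * s)⁻¹ * Real.exp (-‖z‖ ^ 2 / σ +
        -‖r - (starRingEnd ℂ a) * z / (σ : ℂ)‖ ^ 2 / (s / σ)) := by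
    rw [Real.exp_add]
    field_simp
  rw [h1, h2]
  congr 2
  have h3 : r - (starRingEnd ℂ a) * z / (σ : ℂ) =
      (((σ : ℂ) * r - (starRingEnd ℂ a) * z)) / (σ : ℂ) := by
    have : (σ : ℂ) ≠ 0 := by exact_mod_cast hσ0.ne'
    field_simp
  rw [h3, norm_div, div_pow, Complex.norm_real, Real.norm_of_nonneg hσ0.le]
  rw [← Complex.normSq_eq_norm_sq r, ← Complex.normSq_eq_norm_sq z,
    ← Complex.normSq_eq_norm_sq (z - r * a),
    ← Complex.normSq_eq_norm_sq ((σ : ℂ) * r - (starRingEnd ℂ a) * z)]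
  rw [← Complex.normSq_eq_norm_sq a] at hσ
  have h4 : Complex.normSq ((σ : ℂ) * r - (starRingEnd ℂ a) * z) * 1 =
      σ * (s * Complex.normSq r + Complex.normSq (z - r * a)) - s * Complex.normSq z := by
    simp only [Complex.normSq_apply, Complex.sub_re, Complex.sub_im, Complex.mul_re,
      Complex.mul_im, Complex.ofReal_re, Complex.ofReal_im, Complex.conj_re, Complex.conj_im]
    rw [Complex.normSq_apply] at hσ
    rw [hσ]
    ring
  rw [mul_one] at h4
  rw [h4]
  field_simp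
  ring

/-- one variable -/
theorem conv1 {s : ℝ} (hs : 0 < s) (a z : ℂ) :
    ∫⁻ r : ℂ, ENNReal.ofReal (gs 1 r) * ENNReal.ofReal (gs s (z - r * a)) =
      ENNReal.ofReal (gs (s + ‖a‖ ^ 2) z) := by
  have hσ0 : 0 < s + ‖a‖ ^ 2 := by positivity
  have h1 : ∀ r : ℂ, ENNReal.ofReal (gs 1 r) * ENNReal.ofReal (gs s (z - r * a)) =
      ENNReal.ofReal (gs (s + ‖a‖ ^ 2) z) * ENNReal.ofReal (gs (s / (s + ‖a‖ ^ 2))
        (r - (starRingEnd ℂ a) * z / ((s + ‖a‖ ^ 2 : ℝ) : ℂ))) := by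
    intro r
    rw [← ENNReal.ofReal_mul (gs_nn one_pos r), gs_mul_gs hs,
      ENNReal.ofReal_mul (gs_nn hσ0 z)]
  rw [lintegral_congr h1, lintegral_const_mul' _ _ ENNReal.ofReal_ne_top,
    lintegral_sub_right_eq_self (fun r => ENNReal.ofReal (gs (s / (s + ‖a‖ ^ 2)) r)),
    lint_gs (by positivity), mul_one]

/-- the density of `n` Gaussian variables -/
noncomputable def PG {n : ℕ} (ρ : Fin n → ℂ) : ℝ≥0∞ := ENNReal.ofReal (∏ i, gs 1 (ρ i))

theorem PG_meas (n : ℕ) : Measurable (PG (n := n)) := by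
  unfold PG
  refine ENNReal.measurable_ofReal.comp ?_
  refine Finset.measurable_prod _ fun i _ => ?_
  exact gs_meas.comp (measurable_const.prodMk (measurable_pi_apply i))

/-- `n` variables -/
theorem convn {n : ℕ} (a : Fin n → ℂ) : ∀ {s : ℝ}, 0 < s → ∀ z : ℂ,
    ∫⁻ ρ : Fin n → ℂ, PG ρ * ENNReal.ofReal (gs s (z - ∑ i, ρ i * a i)) =
      ENNReal.ofReal (gs (s + nsq a) z) := by
  induction n with
  | zero =>
    intro s hs z
    have h1 : (volume : Measure (Fin 0 → ℂ)) = Measure.dirac default := by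
      rw [volume_pi]
      exact Measure.pi_of_empty _ _
    rw [h1, lintegral_dirac]
    simp [PG, nsq]
  | succ n ih =>
    intro s hs z
    have hmp := (volume_preserving_piFinSuccAbove (fun _ : Fin (n + 1) => ℂ) 0).symm
    rw [← hmp.lintegral_comp_emb (MeasurableEquiv.measurableEmbedding _)]
    have h2 : ∀ p : ℂ × (Fin n → ℂ),
        PG ((MeasurableEquiv.piFinSuccAbove (fun _ : Fin (n + 1) => ℂ) 0).symm p) *
          ENNReal.ofReal (gs s (z - ∑ i,
            (MeasurableEquiv.piFinSuccAbove (fun _ : Fin (n + 1) => ℂ) 0).symm p i * a i)) =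
        ENNReal.ofReal (gs 1 p.1) * (PG p.2 *
          ENNReal.ofReal (gs s (z - p.1 * a 0 - ∑ i, p.2 i * a i.succ))) := by
      intro p
      have h3 : (MeasurableEquiv.piFinSuccAbove (fun _ : Fin (n + 1) => ℂ) 0).symm p =
          Fin.cons (α := fun _ => ℂ) p.1 p.2 := by
        show (0 : Fin (n + 1)).insertNth (α := fun _ => ℂ) p.1 p.2 = _
        rw [Fin.insertNth_zero']
      rw [h3, Fin.sum_univ_succ]
      unfold PG
      rw [Fin.prod_univ_succ]
      simp only [Fin.cons_zero, Fin.cons_succ]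
      rw [ENNReal.ofReal_mul (gs_nn one_pos _), mul_assoc, sub_sub]
    rw [lintegral_congr h2]
    have hm : Measurable (fun p : ℂ × (Fin n → ℂ) => ENNReal.ofReal (gs 1 p.1) * (PG p.2 *
          ENNReal.ofReal (gs s (z - p.1 * a 0 - ∑ i, p.2 i * a i.succ)))) := by
      refine Measurable.mul ?_ (Measurable.mul ((PG_meas n).comp measurable_snd) ?_)
      · exact ENNReal.measurable_ofReal.comp
          (gs_meas.comp (measurable_const.prodMk measurable_fst))
      · refine ENNReal.measurable_ofReal.comp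
          (gs_meas.comp (measurable_const.prodMk ?_))
        fun_prop
    rw [show (volume : Measure (ℂ × (Fin n → ℂ))) = (volume : Measure ℂ).prod volume from rfl,
      lintegral_prod _ hm.aemeasurable]
    have h4 : ∀ x : ℂ, ∫⁻ y : Fin n → ℂ, ENNReal.ofReal (gs 1 (x, y).1) * (PG (x, y).2 *
          ENNReal.ofReal (gs s (z - (x, y).1 * a 0 - ∑ i, (x, y).2 i * a i.succ))) =
        ENNReal.ofReal (gs 1 x) *
          ENNReal.ofReal (gs (s + nsq (fun i : Fin n => a i.succ)) (z - x * a 0)) := by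
      intro x
      dsimp only
      rw [lintegral_const_mul' _ _ ENNReal.ofReal_ne_top, ih (fun i => a i.succ) hs]
    rw [lintegral_congr h4]
    have hn0 : 0 ≤ nsq (fun i : Fin n => a i.succ) := by
      unfold nsq; exact Finset.sum_nonneg fun i _ => by positivity
    rw [conv1 (by linarith)]
    have h5 : nsq a = ‖a 0‖ ^ 2 + nsq (fun i : Fin n => a i.succ) := by
      unfold nsq; rw [Fin.sum_univ_succ]
    rw [h5]
    congr 2
    ring

/-- the partial heat potential -/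
noncomputable def Lb (α β : ℝ) (w : ℂ) : ℝ≥0∞ := ∫⁻ s in Set.Ioo α β, ENNReal.ofReal (gs s w)

theorem Lb_meas (α β : ℝ) : Measurable (Lb α β) := by
  unfold Lb
  have h : Measurable (fun p : ℂ × ℝ => ENNReal.ofReal (gs p.2 p.1)) :=
    ENNReal.measurable_ofReal.comp (gs_meas.comp measurable_swap)
  exact h.lintegral_prod_right'

/-- division by `b` -/
theorem Lam_div {b : ℂ} (hb : b ≠ 0) (w : ℂ) : Lam (w / b) = Lb 0 (‖b‖ ^ 2) w := by
  have hb0 : 0 < ‖b‖ ^ 2 := by
    have := norm_pos_iff.2 hb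
    positivity
  obtain ⟨β, hβ⟩ : ∃ β : ℝ, β = ‖b‖ ^ 2 := ⟨_, rfl⟩
  rw [← hβ] at hb0 ⊢
  unfold Lam Lb
  have himg : (fun s : ℝ => β * s) '' Set.Ioo 0 1 = Set.Ioo 0 β := by
    rw [Set.image_mul_left_Ioo hb0]
    simp
  have hder : ∀ x ∈ Set.Ioo (0 : ℝ) 1,
      HasDerivWithinAt (fun s : ℝ => β * s) ((fun _ => β) x) (Set.Ioo 0 1) x := fun x _ => by
    have h := (hasDerivAt_id x).const_mul β
    rw [mul_one] at h
    exact h.hasDerivWithinAt
  rw [← himg, lintegral_image_eq_lintegral_abs_deriv_mul measurableSet_Ioo hder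
    (fun x _ y _ h => mul_left_cancel₀ hb0.ne' h)]
  refine setLIntegral_congr_fun measurableSet_Ioo fun s hs => ?_
  rw [← ENNReal.ofReal_mul (abs_nonneg _), abs_of_pos hb0]
  congr 1
  unfold gs
  rw [norm_div, div_pow, ← hβ]
  have hs0 := hs.1
  have h1 : -(‖w‖ ^ 2 / β) / s = -‖w‖ ^ 2 / (β * s) := by field_simp
  rw [h1]
  field_simp

/-- translation of the time -/
theorem Lb_shift {α β : ℝ} (w : ℂ) :
    ∫⁻ s in Set.Ioo 0 β, ENNReal.ofReal (gs (s + α) w) = Lb α (β + α) w := by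
  unfold Lb
  have himg : (fun s : ℝ => s + α) '' Set.Ioo 0 β = Set.Ioo α (β + α) := by
    rw [Set.image_add_const_Ioo, zero_add]
  have hder : ∀ x ∈ Set.Ioo (0 : ℝ) β,
      HasDerivWithinAt (fun s : ℝ => s + α) ((fun _ => (1 : ℝ)) x) (Set.Ioo 0 β) x :=
    fun x _ => ((hasDerivAt_id x).add_const α).hasDerivWithinAt
  rw [← himg, lintegral_image_eq_lintegral_abs_deriv_mul measurableSet_Ioo hder
    (fun x _ y _ h => add_right_cancel h)]
  refine setLIntegral_congr_fun measurableSet_Ioo fun s hs => ?_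
  simp

/-- the substitution `z = c + r b` -/
theorem subst_b {b : ℂ} (hb : b ≠ 0) (c : ℂ) (F : ℂ → ℝ≥0∞) :
    ∫⁻ z, F z = ∫⁻ r, ENNReal.ofReal (‖b‖ ^ 2) * F (c + r * b) := by
  obtain ⟨T, hT⟩ : ∃ T : ℂ →L[ℝ] ℂ, T = ContinuousLinearMap.mul ℝ ℂ b := ⟨_, rfl⟩
  have hdet : T.det = ‖b‖ ^ 2 := by
    have h1 : T.det = LinearMap.det (Algebra.lmul ℝ ℂ b) := by
      rw [hT]; rfl
    rw [h1, ← Algebra.norm_apply, Algebra.norm_complex_apply, Complex.normSq_eq_norm_sq]
  have himg : (fun r : ℂ => c + r * b) '' Set.univ = Set.univ := by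
    rw [Set.image_univ, Set.range_eq_univ]
    intro z
    exact ⟨(z - c) / b, by field_simp; ring⟩
  have h2 := lintegral_image_eq_lintegral_abs_det_fderiv_mul (volume : Measure ℂ)
    (s := Set.univ) MeasurableSet.univ (f := fun r : ℂ => c + r * b) (f' := fun _ => T)
    (fun x _ => by
      have h3 : HasFDerivAt (fun r : ℂ => T r) T x := T.hasFDerivAt
      have h4 : (fun r : ℂ => c + r * b) = fun r : ℂ => c + T r := by
        funext r; rw [hT, ContinuousLinearMap.mul_apply', mul_comm]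
      rw [h4]
      exact (h3.const_add c).hasFDerivWithinAt)
    (fun x _ y _ h => mul_right_cancel₀ hb (add_left_cancel h)) F
  rw [himg, setLIntegral_univ, setLIntegral_univ] at h2
  rw [h2]
  refine lintegral_congr fun r => ?_
  rw [hdet, abs_of_nonneg (by positivity)]

theorem pf_RGB (hRLA : T_RLA) : T_RGB := by
  intro n a b hab g hg
  by_cases hb : b = 0
  · subst hb
    have h0 : ∀ ρ : Fin n → ℂ, ENNReal.ofReal (∏ i, gs 1 (ρ i)) *
        ∫⁻ r : ℂ, Lam r * ENNReal.ofReal (‖(0 : ℂ)‖ ^ 2) * g (∑ i, ρ i * a i + r * 0) = 0 := by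
      intro ρ
      simp
    rw [lintegral_congr h0, lintegral_zero]
    exact zero_le
  have hα : 0 ≤ nsq a := by unfold nsq; exact Finset.sum_nonneg fun i _ => by positivity
  obtain ⟨β, hβ⟩ : ∃ β : ℝ, β = ‖b‖ ^ 2 := ⟨_, rfl⟩
  have hcont : Measurable (fun ρ : Fin n → ℂ => ∑ i, ρ i * a i) := by fun_prop
  -- the inner integral
  have h1 : ∀ ρ : Fin n → ℂ,
      ∫⁻ r : ℂ, Lam r * ENNReal.ofReal (‖b‖ ^ 2) * g (∑ i, ρ i * a i + r * b) =
        ∫⁻ z, Lb 0 β (z - ∑ i, ρ i * a i) * g z := by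
    intro ρ
    rw [subst_b hb (∑ i, ρ i * a i) (fun z => Lb 0 β (z - ∑ i, ρ i * a i) * g z)]
    refine lintegral_congr fun r => ?_
    have h2 : ∑ i, ρ i * a i + r * b - ∑ i, ρ i * a i = r * b := by ring
    rw [h2, hβ, ← Lam_div hb, mul_div_cancel_right₀ _ hb]
    ring
  have hP : ∀ ρ : Fin n → ℂ, ENNReal.ofReal (∏ i, gs 1 (ρ i)) = PG ρ := fun _ => rfl
  calc ∫⁻ ρ : Fin n → ℂ, ENNReal.ofReal (∏ i, gs 1 (ρ i)) *
        ∫⁻ r : ℂ, Lam r * ENNReal.ofReal (‖b‖ ^ 2) * g (∑ i, ρ i * a i + r * b)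
      = ∫⁻ ρ : Fin n → ℂ, ∫⁻ z, PG ρ * (Lb 0 β (z - ∑ i, ρ i * a i) * g z) := by
        refine lintegral_congr fun ρ => ?_
        rw [h1, hP, lintegral_const_mul]
        exact ((Lb_meas 0 β).comp (measurable_id.sub_const _)).mul hg
    _ = ∫⁻ z, ∫⁻ ρ : Fin n → ℂ, PG ρ * (Lb 0 β (z - ∑ i, ρ i * a i) * g z) := by
        refine lintegral_lintegral_swap ?_
        refine Measurable.aemeasurable ?_
        show Measurable fun p : (Fin n → ℂ) × ℂ =>
          PG p.1 * (Lb 0 β (p.2 - ∑ i, p.1 i * a i) * g p.2)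
        refine ((PG_meas n).comp measurable_fst).mul (Measurable.mul ?_ (hg.comp measurable_snd))
        exact (Lb_meas 0 β).comp (measurable_snd.sub (hcont.comp measurable_fst))
    _ ≤ ∫⁻ z, Lam z * g z := by
        refine lintegral_mono fun z => ?_
        have h3 : ∀ ρ : Fin n → ℂ, PG ρ * (Lb 0 β (z - ∑ i, ρ i * a i) * g z) =
            (∫⁻ s in Set.Ioo 0 β, PG ρ * ENNReal.ofReal (gs s (z - ∑ i, ρ i * a i))) *
              g z := by
          intro ρ
          rw [← mul_assoc]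
          congr 1
          unfold Lb
          rw [lintegral_const_mul]
          exact ENNReal.measurable_ofReal.comp
            (gs_meas.comp (measurable_id.prodMk measurable_const))
        have hm2 : Measurable fun p : (Fin n → ℂ) × ℝ =>
            PG p.1 * ENNReal.ofReal (gs p.2 (z - ∑ i, p.1 i * a i)) := by
          refine ((PG_meas n).comp measurable_fst).mul
            (ENNReal.measurable_ofReal.comp (gs_meas.comp (measurable_snd.prodMk ?_)))
          exact (measurable_const.sub (hcont.comp measurable_fst))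
        rw [lintegral_congr h3, lintegral_mul_const _ hm2.lintegral_prod_right']
        refine mul_le_mul_left ?_ _
        rw [lintegral_lintegral_swap hm2.aemeasurable]
        calc ∫⁻ s in Set.Ioo 0 β, ∫⁻ ρ : Fin n → ℂ,
              PG ρ * ENNReal.ofReal (gs s (z - ∑ i, ρ i * a i))
            = ∫⁻ s in Set.Ioo 0 β, ENNReal.ofReal (gs (s + nsq a) z) :=
              setLIntegral_congr_fun measurableSet_Ioo fun s hs => convn a hs.1 z
          _ = Lb (nsq a) (β + nsq a) z := Lb_shift z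
          _ ≤ Lam z := by
              unfold Lb Lam
              refine lintegral_mono_set ?_
              intro s hs
              exact ⟨lt_of_le_of_lt hα hs.1, lt_of_lt_of_le hs.2 (by rw [hβ]; linarith)⟩

end Pool.Agent.H69.EHD
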